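import Pool.Agent.Helper78.K.Result

/-!
Critical bond percolation on the square lattice in half-infinite diagonal strips: the exact
probabilities that a corner is joined to the opposite side and to the other corner, and the
constant of Cardy's formula.
-/

set_option autoImplicit false

open H47Perc Finset Filter Topology

namespace Pool.Agent.Results.MP_35f495_pr.CardyConstant

/-- `IPK.cs n` is the probability that the corner `(1,0)` of the half-infinite strip
`0 ≤ x + y ≤ 2n+1`, `x - y ≥ 1` is joined inside the strip to the opposite side `x + y = 2n+1`;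
`IPK.cc w` is the probability that the two corners `(1,0)` and `(w,w-1)` of the half-infinite strip
`0 ≤ x + y ≤ 2w`, `x - y ≥ 1` are joined inside the strip (both are limits, and suprema, of the
probabilities in the finite parts `x - y ≤ N`).  Both are explicit products, and
`cc (n+1) / (cs n)^2` tends to `Γ(1/3)^2 / (3 Γ(2/3))`, the inverse of the constant in Cardy's
formula. -/
theorem result :
    (∀ n : ℕ, Tendsto (fun N : ℕ => perc half (IPK.hs (2 * n + 1) N)
        (fun ω => ∃ z : ℤ × ℤ, z.1 + z.2 = 2 * n + 1 ∧ Joined ω (1, 0) z)) atTop (𝓝 (IPK.cs n)) ∧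
      IPK.cs n = ∏ k ∈ range n, (3 * (k : ℝ) + 5) * (2 * k + 1) / ((6 * k + 5) * (k + 2))) ∧
    (∀ m : ℕ, Tendsto (fun N : ℕ => perc half (IPK.hs (2 * (m + 1)) N)
        (fun ω => Joined ω (1, 0) ((m : ℤ) + 1, (m : ℤ)))) atTop (𝓝 (IPK.cc (m + 1))) ∧
      IPK.cc (m + 1) =
        ∏ k ∈ range m, (3 * (k : ℝ) + 7) * (2 * k + 1) / ((6 * k + 7) * (k + 3))) ∧
    Tendsto (fun n : ℕ => IPK.cc (n + 1) / IPK.cs n ^ 2) atTop
      (𝓝 (Real.Gamma (1 / 3) ^ 2 / (3 * Real.Gamma (2 / 3)))) := by
  obtain ⟨h1, h2, h3⟩ := IPK.result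
  refine ⟨fun n => ⟨IPK.cs_tendsto n, h1 n⟩, fun m => ⟨?_, h2 m⟩, h3⟩
  have h := IPK.cc_tendsto (m + 1)
  have e : (((m + 1 : ℕ) : ℤ) - 1) = (m : ℤ) := by push_cast; ring
  have e2 : ((m + 1 : ℕ) : ℤ) = (m : ℤ) + 1 := by push_cast; ring
  rw [e, e2] at h
  exact h

end Pool.Agent.Results.MP_35f495_pr.CardyConstant
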