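import Pool.Agent.Helper47.Perc.Gen11

/-!
Exact sum rules for critical bond percolation on the square lattice in a row-convex domain, seen
from any vertex of its bottom row.
-/

set_option autoImplicit false

open H47Perc Finset

namespace Pool.Agent.Results.MP_35f495_pr.RowSumRules

open Classical in
/-- Bond percolation on the square lattice, horizontal edges open with probability `h`, vertical
edges with probability `1 - h` (the critical line; `h = 1/2` is the isotropic critical point).
`S` consists of the rows `{l y, …, r y}`, `a ≤ y ≤ b`, consecutive rows overlap, and `(x₀, a)` is a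
vertex of its bottom row.  With `P z` = probability that `(x₀, a)` and `z` are joined by an open
path in `S`, let `R`, `L`, `T` be the sums of `P z` over the `z` in `S` whose right, left, upper
neighbour is not in `S`, and `B₋`, `B₊` the sums of `P z` over the `z` in `S` whose lower neighbour
is not in `S` and which lie before, after `(x₀, a)`.  Then
`h R + (1 - h) T = 1 + (1 - h) B₋` and `h L + (1 - h) T = 1 + (1 - h) B₊`. -/
theorem result (h : ℝ) (S : Finset (ℤ × ℤ)) (a b : ℤ) (l r : ℤ → ℤ) (H : RowConvex a b l r S)
    (x₀ : ℤ) (hl : l a ≤ x₀) (hr : x₀ ≤ r a) :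
    h * (∑ z ∈ S.filter (fun z => z + (1, 0) ∉ S),
        perc (aniso h) S (fun ω => Joined ω (x₀, a) z)) +
      (1 - h) * (∑ z ∈ S.filter (fun z => z + (0, 1) ∉ S),
        perc (aniso h) S (fun ω => Joined ω (x₀, a) z)) =
      1 + (1 - h) * (∑ z ∈ S.filter (fun z => z + (0, -1) ∉ S ∧ BefB a l x₀ z),
        perc (aniso h) S (fun ω => Joined ω (x₀, a) z)) ∧
    h * (∑ z ∈ S.filter (fun z => z + (-1, 0) ∉ S),
        perc (aniso h) S (fun ω => Joined ω (x₀, a) z)) +
      (1 - h) * (∑ z ∈ S.filter (fun z => z + (0, 1) ∉ S),
        perc (aniso h) S (fun ω => Joined ω (x₀, a) z)) =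
      1 + (1 - h) * (∑ z ∈ S.filter (fun z => z + (0, -1) ∉ S ∧ AftB a r x₀ z),
        perc (aniso h) S (fun ω => Joined ω (x₀, a) z)) :=
  row_rule h H hl hr

end Pool.Agent.Results.MP_35f495_pr.RowSumRules
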