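import Pool.Agent.Helper26.Perc.Flat
import Pool.Agent.Helper47.Perc.GenFlat
import Pool.Agent.Helper46.RSW.RSW

/-!
Critical bond percolation in horizontal strips of the square lattice: an exact relation between
the connections from a boundary vertex to the two sides of the strip, and its limit.

`stP n z` is the probability that `0` and `z` are joined by an open path in the strip
`ℤ × [0,n]` (the supremum, and limit, of the probabilities `pB M n z` in the boxes
`[-M,M] × [0,n]`).
-/

set_option autoImplicit false

open H47Perc H47Perc.StripF Filter Topology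

namespace Pool.Agent.Results.MP_35f495_pr.StripRatio

theorem flat : H47Perc.StripF.FlatRule := by
  intro M n
  have h := H47Perc.flat_rule M n (by omega) (by omega)
  unfold cn at h
  exact h

/-- In the strip `ℤ × [0,n]` the expected number of vertices of the top side joined to `0` is
`3/2` plus half the expected number of vertices of the bottom side joined to `0`; both tend to
infinity with `n`, and their ratio tends to `1/2`. -/
theorem result :
    (∀ n : ℕ, ∀ z : ℤ × ℤ, Tendsto (fun M : ℕ => pB M n z) atTop (𝓝 (stP n z))) ∧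
    (∀ n : ℕ, Summable (fun x : ℤ => stP n (x, n)) ∧ Summable (fun x : ℤ => stP n (x, 0)) ∧
      ∑' x : ℤ, stP n (x, n) = 3 / 2 + (∑' x : ℤ, stP n (x, 0)) / 2) ∧
    Tendsto (fun n : ℕ => ∑' x : ℤ, stP n (x, 0)) atTop atTop ∧
    Tendsto (fun n : ℕ => (∑' x : ℤ, stP n (x, n)) / (∑' x : ℤ, stP n (x, 0))) atTop
      (𝓝 (1 / 2)) := by
  obtain ⟨c, hc, h4⟩ := H46.rsw_pLR 4
  have hc4 : RSW4 c := ⟨hc, fun n hn => by exact_mod_cast h4 n hn⟩
  exact ⟨tendsto_pB, fun n => ⟨summable_stP n n, summable_stP n 0, strip_identity flat n⟩,
    botN_tendsto hc4 flat, strip_ratio hc4 flat⟩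

end Pool.Agent.Results.MP_35f495_pr.StripRatio
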